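import Pool.Agent.Helper78.GL.Spec

set_option autoImplicit false

/-!
Part A_GRN of the GL swarm (MP_a31c1c_an): Green's identity.
-/

open MeasureTheory Metric Set Filter Topology

namespace Helper79.GL

open Helper78.GL

lemma integrable_of_supp {F : ℂ → ℝ} {r : ℝ} (hF : ContinuousOn F (closedBall 0 r))
    (h0 : ∀ w : ℂ, w ∉ closedBall (0 : ℂ) r → F w = 0) : Integrable F := by
  have h1 : F = (closedBall (0 : ℂ) r).indicator F := by
    funext w
    by_cases hw : w ∈ closedBall (0 : ℂ) r
    · rw [indicator_of_mem hw]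
    · rw [indicator_of_notMem hw, h0 w hw]
  rw [h1, integrable_indicator_iff measurableSet_closedBall]
  exact hF.integrableOn_compact (isCompact_closedBall 0 r)

/-- integration by parts in one direction -/
lemma grn_dir {R r : ℝ} {v φ : ℂ → ℝ} (e : ℂ) (hrR : r < R)
    (hv : ContDiffOn ℝ 1 v (ball 0 R)) (hφ : ContDiff ℝ 1 φ)
    (hs : tsupport φ ⊆ closedBall (0 : ℂ) r) :
    Integrable (fun z => v z * fderiv ℝ φ z e) ∧ Integrable (fun z => fderiv ℝ v z e * φ z) ∧
    ∫ z : ℂ, v z * fderiv ℝ φ z e = - ∫ z : ℂ, fderiv ℝ v z e * φ z := by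
  have hsub : closedBall (0 : ℂ) r ⊆ ball 0 R := closedBall_subset_ball hrR
  have hvc : ContinuousOn v (closedBall 0 r) := hv.continuousOn.mono hsub
  have hv' : ContinuousOn (fun z => fderiv ℝ v z e) (closedBall 0 r) :=
    ((hv.continuousOn_fderiv_of_isOpen isOpen_ball le_rfl).mono hsub).clm_apply continuousOn_const
  have hφ' : Continuous (fun z => fderiv ℝ φ z e) :=
    (hφ.continuous_fderiv (by norm_num)).clm_apply continuous_const
  have h0 : ∀ w : ℂ, w ∉ closedBall (0 : ℂ) r → φ w = 0 := fun w hw =>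
    image_eq_zero_of_notMem_tsupport fun h => hw (hs h)
  have h0' : ∀ w : ℂ, w ∉ closedBall (0 : ℂ) r → fderiv ℝ φ w = 0 := fun w hw =>
    image_eq_zero_of_notMem_tsupport fun h => hw (hs (tsupport_fderiv_subset ℝ h))
  have i1 : Integrable (fun z => v z * fderiv ℝ φ z e) :=
    integrable_of_supp (hvc.mul hφ'.continuousOn) fun w hw => by rw [h0' w hw]; simp
  have i2 : Integrable (fun z => fderiv ℝ v z e * φ z) :=
    integrable_of_supp (hv'.mul hφ.continuous.continuousOn) fun w hw => by rw [h0 w hw]; simp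
  have i3 : Integrable (fun z => v z * φ z) :=
    integrable_of_supp (hvc.mul hφ.continuous.continuousOn) fun w hw => by rw [h0 w hw]; simp
  refine ⟨i1, i2, integral_mul_fderiv_eq_neg_fderiv_mul_of_integrable i2 i1 i3 ?_ ?_⟩
  · intro x hx
    exact (hv.differentiableOn (by norm_num)).differentiableAt
      (isOpen_ball.mem_nhds (hsub (hs hx)))
  · intro x _
    exact hφ.differentiable (by norm_num) x

/-- GRN -/
theorem grn_thm : S_GRN := by
  intro R r v ψ hr hrR hv hψ hs
  have hts : tsupport ψ ⊆ closedBall (0 : ℂ) r := by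
    apply closure_minimal _ isClosed_closedBall
    intro w hw
    rw [mem_closedBall, dist_zero_right]
    by_contra hcon
    exact hw (hs w (not_le.1 hcon).le)
  have hd : ∀ e : ℂ, ContDiff ℝ 1 (fun z => fderiv ℝ ψ z e) := fun e =>
    (hψ.fderiv_right (m := 1) (by norm_num)).clm_apply contDiff_const
  have hds : ∀ e : ℂ, tsupport (fun z => fderiv ℝ ψ z e) ⊆ closedBall (0 : ℂ) r := by
    intro e
    refine (closure_mono ?_).trans ((tsupport_fderiv_subset ℝ (f := ψ)).trans hts)
    intro z hz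
    rw [Function.mem_support] at hz ⊢
    intro h
    exact hz (by rw [h]; rfl)
  obtain ⟨a1, b1, c1⟩ := grn_dir 1 hrR hv (hd 1) (hds 1)
  obtain ⟨a2, b2, c2⟩ := grn_dir Complex.I hrR hv (hd Complex.I) (hds Complex.I)
  have e1 : (fun z : ℂ => lap ψ z * v z) = fun z =>
      v z * fderiv ℝ (fun z => fderiv ℝ ψ z 1) z 1 +
        v z * fderiv ℝ (fun z => fderiv ℝ ψ z Complex.I) z Complex.I := by
    funext z
    unfold lap dX dY
    ring
  have e2 : (fun z : ℂ => dX v z * dX ψ z + dY v z * dY ψ z) = fun z =>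
      fderiv ℝ v z 1 * fderiv ℝ ψ z 1 + fderiv ℝ v z Complex.I * fderiv ℝ ψ z Complex.I := rfl
  rw [e1, e2, integral_add a1 a2, integral_add b1 b2, c1, c2]
  ring

end Helper79.GL
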