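import Pool.Agent.Helper78.GL.Spec

set_option autoImplicit false

/-!
Part A_PROF of the GL swarm (MP_a31c1c_an): there is a radial mollifier profile.
-/

open MeasureTheory Metric Set Filter Topology

namespace Helper79.GL

open Helper78.GL

/-- the transition function -/
noncomputable def q (t : ℝ) : ℝ := Real.smoothTransition (2 * t - 1)

lemma q_contDiff : ContDiff ℝ (⊤ : ℕ∞) q := by
  unfold q
  exact Real.smoothTransition.contDiff.comp (by fun_prop)

lemma q_zero {t : ℝ} (h : t ≤ 1 / 2) : q t = 0 :=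
  Real.smoothTransition.zero_of_nonpos (by linarith)

lemma q_one {t : ℝ} (h : 1 ≤ t) : q t = 1 :=
  Real.smoothTransition.one_of_one_le (by linarith)

lemma q_lt_one {t : ℝ} (h : t < 1) : q t < 1 :=
  Real.smoothTransition.lt_one_of_lt_one (by linarith)

lemma q_nonneg (t : ℝ) : 0 ≤ q t := Real.smoothTransition.nonneg _

lemma q_le_one (t : ℝ) : q t ≤ 1 := Real.smoothTransition.le_one _

lemma q_mono : Monotone q := fun a b h =>
  Real.smoothTransition.monotone (by linarith)

lemma q_deriv_nonneg (t : ℝ) : 0 ≤ deriv q t := q_mono.deriv_nonneg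

lemma q_deriv_zero {t : ℝ} (h : 1 ≤ t) : deriv q t = 0 := by
  have : IsLocalMax q t := by
    refine Filter.Eventually.of_forall fun s => ?_
    rw [q_one h]; exact q_le_one s
  exact this.deriv_eq_zero

/-- `q t / t` -/
noncomputable def kk (t : ℝ) : ℝ := q t / t

lemma kk_zero {t : ℝ} (h : t ≤ 1 / 2) : kk t = 0 := by
  unfold kk; rw [q_zero h]; simp

lemma kk_mul (t : ℝ) : t * kk t = q t := by
  unfold kk
  rcases le_or_gt t (1/2) with h | h
  · rw [q_zero h]; simp
  · field_simp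

lemma kk_contDiff : ContDiff ℝ (⊤ : ℕ∞) kk := by
  rw [contDiff_iff_contDiffAt]
  intro t
  rcases lt_or_ge t (1/2) with h | h
  · have : kk =ᶠ[𝓝 t] fun _ => 0 := by
      filter_upwards [gt_mem_nhds h] with s hs
      exact kk_zero hs.le
    exact contDiffAt_const.congr_of_eventuallyEq this
  · unfold kk
    exact (q_contDiff.contDiffAt).div contDiffAt_id (by positivity)

/-- the potential as a function of `|z|²` -/
noncomputable def HH (t : ℝ) : ℝ := -(1 / (4 * Real.pi)) * ∫ s in (1 : ℝ)..t, kk s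

lemma HH_hasDerivAt (t : ℝ) : HasDerivAt HH (-(1 / (4 * Real.pi)) * kk t) t := by
  unfold HH
  refine HasDerivAt.const_mul _ ?_
  exact intervalIntegral.integral_hasDerivAt_right (kk_contDiff.continuous.intervalIntegrable _ _)
    (kk_contDiff.continuous.stronglyMeasurableAtFilter _ _) kk_contDiff.continuous.continuousAt

lemma HH_deriv : deriv HH = fun t => -(1 / (4 * Real.pi)) * kk t := by
  funext t; exact (HH_hasDerivAt t).deriv

lemma HH_contDiff : ContDiff ℝ (⊤ : ℕ∞) HH := by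
  rw [contDiff_infty_iff_deriv]
  refine ⟨fun t => (HH_hasDerivAt t).differentiableAt, ?_⟩
  rw [HH_deriv]
  exact contDiff_const.mul kk_contDiff

lemma HH_ode (t : ℝ) :
    t * deriv (deriv HH) t + deriv HH t = -(1 / (4 * Real.pi)) * deriv q t := by
  have h1 : (fun t => t * deriv HH t) = fun t => -(1 / (4 * Real.pi)) * q t := by
    funext t
    rw [HH_deriv]
    simp only
    rw [← kk_mul t]; ring
  have hd : Differentiable ℝ (deriv HH) := by
    rw [HH_deriv]
    exact ((contDiff_const.mul kk_contDiff).differentiable (by simp))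
  have h2 : deriv (fun t => t * deriv HH t) t = deriv HH t + t * deriv (deriv HH) t := by
    have h3 : HasDerivAt (fun t => t * deriv HH t) (1 * deriv HH t + t * deriv (deriv HH) t) t :=
      (hasDerivAt_id t).mul (hd t).hasDerivAt
    rw [h3.deriv, one_mul]
  rw [h1] at h2
  rw [deriv_const_mul _ (q_contDiff.differentiable (by simp) t)] at h2
  linarith

/-- radial functions -/
lemma normSq_hasFDerivAt (z : ℂ) :
    HasFDerivAt (fun z : ℂ => Complex.normSq z)
      ((2 * z.re) • Complex.reCLM + (2 * z.im) • Complex.imCLM : ℂ →L[ℝ] ℝ) z := by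
  have h1 : HasFDerivAt (fun z : ℂ => z.re) (Complex.reCLM : ℂ →L[ℝ] ℝ) z :=
    Complex.reCLM.hasFDerivAt
  have h2 : HasFDerivAt (fun z : ℂ => z.im) (Complex.imCLM : ℂ →L[ℝ] ℝ) z :=
    Complex.imCLM.hasFDerivAt
  have h3 := (h1.mul h1).add (h2.mul h2)
  refine (h3.congr_of_eventuallyEq ?_).congr_fderiv ?_
  · filter_upwards with w
    simp [Complex.normSq_apply]
  · ext
    simp
    ring

lemma rad_hasFDerivAt {F : ℝ → ℝ} (hF : Differentiable ℝ F) (c : ℝ) (z : ℂ) :
    HasFDerivAt (fun z : ℂ => F (c * Complex.normSq z))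
      ((deriv F (c * Complex.normSq z) * c) •
        ((2 * z.re) • Complex.reCLM + (2 * z.im) • Complex.imCLM : ℂ →L[ℝ] ℝ)) z := by
  have h1 := (normSq_hasFDerivAt z).const_mul c
  have h2 := (hF (c * Complex.normSq z)).hasDerivAt
  have h3 := h2.comp_hasFDerivAt z h1
  refine h3.congr_fderiv ?_
  rw [smul_smul]

lemma rad_dX {F : ℝ → ℝ} (hF : Differentiable ℝ F) (c : ℝ) :
    dX (fun z : ℂ => F (c * Complex.normSq z)) =
      fun z => deriv F (c * Complex.normSq z) * (c * (2 * z.re)) := by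
  funext z
  unfold dX
  rw [(rad_hasFDerivAt hF c z).fderiv]
  simp
  ring

lemma rad_dY {F : ℝ → ℝ} (hF : Differentiable ℝ F) (c : ℝ) :
    dY (fun z : ℂ => F (c * Complex.normSq z)) =
      fun z => deriv F (c * Complex.normSq z) * (c * (2 * z.im)) := by
  funext z
  unfold dY
  rw [(rad_hasFDerivAt hF c z).fderiv]
  simp
  ring

lemma rad_lap {F : ℝ → ℝ} (hF : Differentiable ℝ F) (hF' : Differentiable ℝ (deriv F)) (c : ℝ)
    (z : ℂ) :
    lap (fun z : ℂ => F (c * Complex.normSq z)) z =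
      4 * c * ((c * Complex.normSq z) * deriv (deriv F) (c * Complex.normSq z) +
        deriv F (c * Complex.normSq z)) := by
  unfold lap
  rw [rad_dX hF, rad_dY hF]
  unfold dX dY
  have h1 : HasFDerivAt (fun z : ℂ => z.re) (Complex.reCLM : ℂ →L[ℝ] ℝ) z :=
    Complex.reCLM.hasFDerivAt
  have h2 : HasFDerivAt (fun z : ℂ => z.im) (Complex.imCLM : ℂ →L[ℝ] ℝ) z :=
    Complex.imCLM.hasFDerivAt
  have h3 := (rad_hasFDerivAt hF' c z).mul ((h1.const_mul 2).const_mul c)
  have h4 := (rad_hasFDerivAt hF' c z).mul ((h2.const_mul 2).const_mul c)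
  have e3 : fderiv ℝ (fun z : ℂ => deriv F (c * Complex.normSq z) * (c * (2 * z.re))) z = _ :=
    h3.fderiv
  have e4 : fderiv ℝ (fun z : ℂ => deriv F (c * Complex.normSq z) * (c * (2 * z.im))) z = _ :=
    h4.fderiv
  rw [e3, e4]
  simp [Complex.normSq_apply]
  ring

lemma lap_sub_const {f g : ℂ → ℝ} (hf : ContDiff ℝ 2 f) (hg : ContDiff ℝ 2 g) (c : ℝ) (z : ℂ) :
    lap (fun z => f z - g z - c) z = lap f z - lap g z := by
  have hfd : Differentiable ℝ f := hf.differentiable (by norm_num)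
  have hgd : Differentiable ℝ g := hg.differentiable (by norm_num)
  have hf1 : ContDiff ℝ 1 (fderiv ℝ f) := hf.fderiv_right (by norm_num)
  have hg1 : ContDiff ℝ 1 (fderiv ℝ g) := hg.fderiv_right (by norm_num)
  have e1 : ∀ v : ℂ, (fun z => fderiv ℝ (fun z => f z - g z - c) z v) =
      fun z => fderiv ℝ f z v - fderiv ℝ g z v := by
    intro v; funext z
    have : HasFDerivAt (fun z => f z - g z - c) (fderiv ℝ f z - fderiv ℝ g z) z :=
      ((hfd z).hasFDerivAt.sub (hgd z).hasFDerivAt).sub_const c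
    rw [this.fderiv]; rfl
  have hfv : ∀ v : ℂ, Differentiable ℝ (fun z => fderiv ℝ f z v) := fun v =>
    (hf1.clm_apply contDiff_const).differentiable (by norm_num)
  have hgv : ∀ v : ℂ, Differentiable ℝ (fun z => fderiv ℝ g z v) := fun v =>
    (hg1.clm_apply contDiff_const).differentiable (by norm_num)
  have e2 : ∀ v : ℂ, fderiv ℝ (fun z => fderiv ℝ (fun z => f z - g z - c) z v) z v =
      fderiv ℝ (fun z => fderiv ℝ f z v) z v - fderiv ℝ (fun z => fderiv ℝ g z v) z v := by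
    intro v
    have h3 : HasFDerivAt (fun z => fderiv ℝ f z v - fderiv ℝ g z v)
        (fderiv ℝ (fun z => fderiv ℝ f z v) z - fderiv ℝ (fun z => fderiv ℝ g z v) z) z :=
      (hfv v z).hasFDerivAt.sub (hgv v z).hasFDerivAt
    rw [e1 v, h3.fderiv]; rfl
  unfold lap dX dY
  rw [e2 1, e2 Complex.I]; ring

/-- the profile -/
noncomputable def chi (w : ℂ) : ℝ := (1 / Real.pi) * deriv q (Complex.normSq w)

lemma normSq_contDiff : ContDiff ℝ (⊤ : ℕ∞) (fun z : ℂ => Complex.normSq z) := by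
  have : (fun z : ℂ => Complex.normSq z) = fun z : ℂ => ‖z‖ ^ 2 := by
    funext z; rw [Complex.normSq_eq_norm_sq]
  rw [this]
  exact contDiff_norm_sq ℝ

lemma qd_contDiff : ContDiff ℝ (⊤ : ℕ∞) (deriv q) :=
  (contDiff_infty_iff_deriv.1 q_contDiff).2

lemma chi_int : ∫ w, chi w = 1 := by
  have h1 : ∀ w : ℂ, chi w = (fun r : ℝ => (1 / Real.pi) * deriv q (r ^ 2)) ‖w‖ := by
    intro w; simp only [chi]; rw [Complex.normSq_eq_norm_sq]
  simp_rw [h1]
  rw [MeasureTheory.integral_fun_norm_addHaar (volume : Measure ℂ)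
    (fun r : ℝ => (1 / Real.pi) * deriv q (r ^ 2))]
  have hdim : Module.finrank ℝ ℂ = 2 := Complex.finrank_real_complex
  have hvol : (volume : Measure ℂ).real (ball (0 : ℂ) 1) = Real.pi := by
    rw [Measure.real, Complex.volume_ball]
    simp
  rw [hdim, hvol]
  have h2 : ∫ y in Ioi (0 : ℝ), 2 * y * deriv q (y ^ 2) = 1 := by
    have hd : ∀ x ∈ Ioi (0 : ℝ), HasDerivAt (fun y : ℝ => q (y ^ 2)) (2 * x * deriv q (x ^ 2)) x := by
      intro x _
      have h1 : HasDerivAt (fun y : ℝ => y ^ 2) (2 * x) x := by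
        simpa using hasDerivAt_pow 2 x
      have h2 : HasDerivAt q (deriv q ((fun y : ℝ => y ^ 2) x)) ((fun y : ℝ => y ^ 2) x) :=
        (q_contDiff.differentiable (by simp) (x ^ 2)).hasDerivAt
      have := HasDerivAt.comp (h₂ := q) (h := fun y : ℝ => y ^ 2) x h2 h1
      rw [mul_comm] at this
      exact this
    have hlim : Tendsto (fun y : ℝ => q (y ^ 2)) atTop (𝓝 1) := by
      refine tendsto_const_nhds.congr' ?_
      filter_upwards [eventually_ge_atTop (1 : ℝ)] with y hy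
      rw [q_one]; nlinarith
    have hnn : ∀ x ∈ Ioi (0 : ℝ), 0 ≤ 2 * x * deriv q (x ^ 2) := by
      intro x hx
      have : (0 : ℝ) < x := hx
      exact mul_nonneg (by linarith) (q_deriv_nonneg _)
    have hcont : ContinuousWithinAt (fun y : ℝ => q (y ^ 2)) (Ici 0) 0 :=
      (q_contDiff.continuous.comp (continuous_pow 2)).continuousWithinAt
    have := integral_Ioi_of_hasDerivAt_of_nonneg hcont hd hnn hlim
    rw [this]
    simp [q_zero]
  have h3 : ∀ y : ℝ, y ^ (2 - 1) • ((1 / Real.pi) * deriv q (y ^ 2)) =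
      (1 / (2 * Real.pi)) * (2 * y * deriv q (y ^ 2)) := by
    intro y
    simp only [smul_eq_mul]
    norm_num
    field_simp
  simp_rw [h3]
  rw [integral_const_mul, h2]
  simp only [nsmul_eq_mul, smul_eq_mul]
  have := Real.pi_pos.ne'
  field_simp
  norm_num

/-- the difference of the potentials as a function of `t = |z|²` -/
noncomputable def PP (r s t : ℝ) : ℝ :=
  HH ((s⁻¹) ^ 2 * t) - HH ((r⁻¹) ^ 2 * t) - (HH 1 - HH ((r⁻¹) ^ 2 * s ^ 2))

lemma PP_hasDerivAt (r s t : ℝ) : HasDerivAt (PP r s)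
    ((1 / (4 * Real.pi)) * (kk ((r⁻¹) ^ 2 * t) * (r⁻¹) ^ 2 - kk ((s⁻¹) ^ 2 * t) * (s⁻¹) ^ 2)) t := by
  have h : ∀ c : ℝ, HasDerivAt (fun t => HH (c * t)) (-(1 / (4 * Real.pi)) * kk (c * t) * c) t := by
    intro c
    have h1 : HasDerivAt (fun t : ℝ => c * t) c t := by
      simpa using (hasDerivAt_id t).const_mul c
    exact (HH_hasDerivAt (c * t)).comp t h1
  have := ((h ((s⁻¹) ^ 2)).sub (h ((r⁻¹) ^ 2))).sub_const (HH 1 - HH ((r⁻¹) ^ 2 * s ^ 2))
  refine HasDerivAt.congr_deriv this ?_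
  ring

lemma kk_scale (c t : ℝ) (ht : 0 < t) : kk (c * t) * c = q (c * t) / t := by
  have := kk_mul (c * t)
  rw [← this]; field_simp

lemma PP_deriv_nonneg {r s : ℝ} (hr : 0 < r) (hrs : r < s) (t : ℝ) : 0 ≤ deriv (PP r s) t := by
  rw [(PP_hasDerivAt r s t).deriv]
  have hs : 0 < s := hr.trans hrs
  rcases le_or_gt t 0 with ht | ht
  · have h1 : kk ((r⁻¹) ^ 2 * t) = 0 := by
      apply kk_zero
      have : (r⁻¹) ^ 2 * t ≤ 0 := mul_nonpos_of_nonneg_of_nonpos (by positivity) ht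
      linarith
    have h2 : kk ((s⁻¹) ^ 2 * t) = 0 := by
      apply kk_zero
      have : (s⁻¹) ^ 2 * t ≤ 0 := mul_nonpos_of_nonneg_of_nonpos (by positivity) ht
      linarith
    rw [h1, h2]; simp
  · rw [kk_scale _ _ ht, kk_scale _ _ ht, ← sub_div]
    have : q ((s⁻¹) ^ 2 * t) ≤ q ((r⁻¹) ^ 2 * t) := by
      apply q_mono
      have : s⁻¹ ≤ r⁻¹ := inv_anti₀ hr hrs.le
      gcongr
    have hpi := Real.pi_pos
    exact mul_nonneg (by positivity) (div_nonneg (by linarith) ht.le)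

lemma PP_mono {r s : ℝ} (hr : 0 < r) (hrs : r < s) : Monotone (PP r s) :=
  monotone_of_deriv_nonneg (fun t => (PP_hasDerivAt r s t).differentiableAt)
    (PP_deriv_nonneg hr hrs)

lemma PP_sq {r s : ℝ} (hs : 0 < s) : PP r s (s ^ 2) = 0 := by
  unfold PP
  rw [show (s⁻¹) ^ 2 * s ^ 2 = 1 by field_simp]
  ring

lemma PP_deriv_zero {r s : ℝ} (hr : 0 < r) (hrs : r < s) {t : ℝ} (ht : s ^ 2 ≤ t) :
    deriv (PP r s) t = 0 := by
  rw [(PP_hasDerivAt r s t).deriv]
  have hs : 0 < s := hr.trans hrs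
  have ht0 : 0 < t := lt_of_lt_of_le (by positivity) ht
  rw [kk_scale _ _ ht0, kk_scale _ _ ht0]
  have h1 : 1 ≤ (s⁻¹) ^ 2 * t := by
    rw [show (s⁻¹) ^ 2 * t = t / s ^ 2 by field_simp, le_div_iff₀ (by positivity)]
    linarith
  have h2 : 1 ≤ (r⁻¹) ^ 2 * t := by
    refine h1.trans ?_
    have : s⁻¹ ≤ r⁻¹ := inv_anti₀ hr hrs.le
    gcongr
  rw [q_one h1, q_one h2]; ring

lemma PP_zero {r s : ℝ} (hr : 0 < r) (hrs : r < s) {t : ℝ} (ht : s ^ 2 ≤ t) : PP r s t = 0 := by
  have hs : 0 < s := hr.trans hrs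
  have hanti : AntitoneOn (PP r s) (Ici (s ^ 2)) := by
    refine antitoneOn_of_deriv_nonpos (convex_Ici _)
      (fun t _ => (PP_hasDerivAt r s t).continuousAt.continuousWithinAt)
      (fun t _ => (PP_hasDerivAt r s t).differentiableAt.differentiableWithinAt) ?_
    intro x hx
    rw [interior_Ici] at hx
    exact (PP_deriv_zero hr hrs (le_of_lt hx)).le
  have h1 := hanti (mem_Ici.2 le_rfl) (mem_Ici.2 ht) ht
  have h2 := PP_mono hr hrs ht
  rw [PP_sq hs] at h1 h2
  linarith

lemma PP_nonpos {r s : ℝ} (hr : 0 < r) (hrs : r < s) (t : ℝ) : PP r s t ≤ 0 := by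
  have hs : 0 < s := hr.trans hrs
  rcases le_or_gt (s ^ 2) t with h | h
  · exact (PP_zero hr hrs h).le
  · have := PP_mono hr hrs h.le
    rw [PP_sq hs] at this
    exact this

lemma PP_neg {r s : ℝ} (hr : 0 < r) (hrs : r < s) : PP r s 0 < 0 := by
  have hs : 0 < s := hr.trans hrs
  by_contra hcon
  push Not at hcon
  have h0 : ∀ t, 0 ≤ t → PP r s t = 0 := by
    intro t ht
    exact le_antisymm (PP_nonpos hr hrs t) (hcon.trans (PP_mono hr hrs ht))
  have hr2 : 0 < r ^ 2 := by positivity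
  have hev : PP r s =ᶠ[𝓝 (r ^ 2)] fun _ => 0 := by
    filter_upwards [lt_mem_nhds hr2] with t ht
    exact h0 t ht.le
  have hd : deriv (PP r s) (r ^ 2) = 0 := by
    rw [hev.deriv_eq]; simp
  rw [(PP_hasDerivAt r s (r ^ 2)).deriv, kk_scale _ _ hr2, kk_scale _ _ hr2] at hd
  have h1 : q ((r⁻¹) ^ 2 * r ^ 2) = 1 := by
    rw [show (r⁻¹) ^ 2 * r ^ 2 = 1 by field_simp]; exact q_one le_rfl
  have h2 : q ((s⁻¹) ^ 2 * r ^ 2) < 1 := by
    apply q_lt_one
    rw [show (s⁻¹) ^ 2 * r ^ 2 = r ^ 2 / s ^ 2 by field_simp, div_lt_one (by positivity)]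
    gcongr
  rw [h1, ← sub_div] at hd
  have hpi := Real.pi_pos
  have : 0 < 1 / (4 * Real.pi) * ((1 - q ((s⁻¹) ^ 2 * r ^ 2)) / r ^ 2) := by
    apply mul_pos (by positivity)
    apply div_pos (by linarith) hr2
  linarith

lemma hh_contDiff (c : ℝ) : ContDiff ℝ (⊤ : ℕ∞) (fun w : ℂ => HH (c * Complex.normSq w)) :=
  HH_contDiff.comp (contDiff_const.mul normSq_contDiff)

lemma hh_lap (c : ℝ) (w : ℂ) : lap (fun w : ℂ => HH (c * Complex.normSq w)) w =
    -(c * ((1 / Real.pi) * deriv q (c * Complex.normSq w))) := by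
  have hd : Differentiable ℝ (deriv HH) := by
    rw [HH_deriv]
    exact ((contDiff_const.mul kk_contDiff).differentiable (by simp))
  rw [rad_lap (HH_contDiff.differentiable (by simp)) hd, HH_ode]
  have := Real.pi_pos.ne'
  field_simp

lemma normSq_smul' (r : ℝ) (w : ℂ) : Complex.normSq ((r : ℂ) * w) = r ^ 2 * Complex.normSq w := by
  rw [Complex.normSq_mul, Complex.normSq_ofReal]; ring

/-- PROF -/
theorem prof_thm : S_PROF := by
  refine ⟨{
    χ := chi
    χ_smooth := contDiff_const.mul (qd_contDiff.comp normSq_contDiff)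
    χ_nonneg := fun w => mul_nonneg (by positivity) (q_deriv_nonneg _)
    χ_supp := ?_
    χ_symm := ?_
    χ_int := chi_int
    h := fun r w => HH ((r⁻¹) ^ 2 * Complex.normSq w)
    h_smooth := fun r _ => hh_contDiff _
    h_lap := ?_
    ψ := fun r s w => PP r s (Complex.normSq w)
    ψ_smooth := ?_
    ψ_supp := ?_
    ψ_lap := ?_
    ψ_nonpos := fun r s hr hrs w => PP_nonpos hr hrs _
    ψ_neg := ?_ }⟩
  · intro w hw
    unfold chi
    rw [q_deriv_zero, mul_zero]
    rw [Complex.normSq_eq_norm_sq]; nlinarith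
  · intro w
    unfold chi
    rw [Complex.normSq_neg]
  · intro r _ w
    rw [hh_lap]
    unfold chi
    rw [normSq_smul']
  · intro r s _ _
    unfold PP
    exact ((hh_contDiff _).sub (hh_contDiff _)).sub contDiff_const
  · intro r s hr hrs w hw
    apply PP_zero hr hrs
    rw [Complex.normSq_eq_norm_sq]
    have hs : 0 < s := hr.trans hrs
    gcongr
  · intro r s hr hrs w
    unfold PP
    rw [lap_sub_const ((hh_contDiff _).of_le (by norm_cast))
      ((hh_contDiff _).of_le (by norm_cast)), hh_lap, hh_lap]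
    unfold chi
    rw [normSq_smul', normSq_smul']
    ring
  · intro r s hr hrs
    simp only [map_zero]
    exact PP_neg hr hrs

end Helper79.GL
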