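import Pool.Agent.Helper78.GL.Spec

set_option autoImplicit false

/-!
Part A_SUBM of the GL swarm (MP_a31c1c_an): `C²` functions with nonnegative Laplacian satisfy the
sub-mean value inequality on circles.
-/

open MeasureTheory Metric Set Filter Topology

namespace Helper79.GL

open Helper78.GL

/-- differentiation under the integral sign for jointly continuous data -/
lemma hasDerivAt_param {F F' : ℝ → ℝ → ℝ} (a b : ℝ)
    (hF : Continuous (fun p : ℝ × ℝ => F p.1 p.2))
    (hF' : Continuous (fun p : ℝ × ℝ => F' p.1 p.2))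
    (hd : ∀ s θ, HasDerivAt (fun s => F s θ) (F' s θ) s) (s : ℝ) :
    HasDerivAt (fun s => ∫ θ in a..b, F s θ) (∫ θ in a..b, F' s θ) s := by
  obtain ⟨C, hC⟩ := ((isCompact_closedBall s 1).prod (isCompact_uIcc (a := a) (b := b))).exists_bound_of_continuousOn
    hF'.continuousOn
  have hc : ∀ s, Continuous (F s) := fun s => hF.comp (by fun_prop : Continuous fun θ : ℝ => (s, θ))
  have hc' : ∀ s, Continuous (F' s) := fun s =>
    hF'.comp (by fun_prop : Continuous fun θ : ℝ => (s, θ))
  refine (intervalIntegral.hasDerivAt_integral_of_dominated_loc_of_deriv_le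
    (bound := fun _ => C) (s := closedBall s 1)
    (closedBall_mem_nhds s one_pos) (Eventually.of_forall fun s => (hc s).aestronglyMeasurable)
    ((hc s).intervalIntegrable _ _) (hc' s).aestronglyMeasurable ?_
    (intervalIntegrable_const) ?_).2
  · refine Eventually.of_forall fun t ht x hx => ?_
    exact hC (x, t) ⟨hx, uIoc_subset_uIcc ht⟩
  · exact Eventually.of_forall fun t _ x _ => hd x t

lemma lap_eq_D2 {g : ℂ → ℝ} (hg : ContDiff ℝ 2 g) (y : ℂ) :
    lap g y = fderiv ℝ (fderiv ℝ g) y 1 1 + fderiv ℝ (fderiv ℝ g) y Complex.I Complex.I := by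
  have hG : ContDiff ℝ 1 (fderiv ℝ g) := hg.fderiv_right (by norm_num)
  have h : ∀ e : ℂ, HasFDerivAt (fun z => fderiv ℝ g z e)
      ((fderiv ℝ (fderiv ℝ g) y).flip e) y := by
    intro e
    have h1 := (hG.differentiable (by norm_num) y).hasFDerivAt
    have h2 := h1.clm_apply (hasFDerivAt_const e y)
    refine h2.congr_fderiv ?_
    ext v <;> simp
  unfold lap dX dY
  have e1 : fderiv ℝ (fun z => fderiv ℝ g z 1) y = _ := (h 1).fderiv
  have e2 : fderiv ℝ (fun z => fderiv ℝ g z Complex.I) y = _ := (h Complex.I).fderiv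
  rw [e1, e2]
  rfl

lemma rot_trace (B : ℂ →L[ℝ] ℂ →L[ℝ] ℝ) (θ : ℝ) :
    B (Complex.exp (θ * Complex.I)) (Complex.exp (θ * Complex.I)) +
      B (Complex.I * Complex.exp (θ * Complex.I)) (Complex.I * Complex.exp (θ * Complex.I)) =
    B 1 1 + B Complex.I Complex.I := by
  have h1 : Complex.exp (θ * Complex.I) = (Real.cos θ) • (1 : ℂ) + (Real.sin θ) • Complex.I := by
    rw [Complex.exp_mul_I, ← Complex.ofReal_cos, ← Complex.ofReal_sin]
    simp [Complex.real_smul]
  have h2 : Complex.I * Complex.exp (θ * Complex.I) =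
      (-Real.sin θ) • (1 : ℂ) + (Real.cos θ) • Complex.I := by
    rw [h1]
    simp only [Complex.real_smul]
    push_cast
    have := Complex.I_mul_I
    linear_combination (Complex.sin θ : ℂ) * this
  rw [h2, h1]
  simp only [map_add, map_smul, add_apply, smul_apply,
    smul_eq_mul, neg_smul, neg_apply, map_neg]
  have := Real.sin_sq_add_cos_sq θ
  linear_combination (B 1 1 + B Complex.I Complex.I) * this

lemma circle_s (z : ℂ) (s θ : ℝ) :
    HasDerivAt (fun s : ℝ => circleMap z s θ) (Complex.exp (θ * Complex.I)) s := by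
  unfold circleMap
  have h1 : HasDerivAt (fun s : ℝ => (s : ℂ)) 1 s := Complex.ofRealCLM.hasDerivAt
  have := (h1.mul_const (Complex.exp (θ * Complex.I))).const_add z
  simpa using this

lemma subm_global {g : ℂ → ℝ} (hg : ContDiff ℝ 2 g) (z : ℂ) (r : ℝ) (hr : 0 < r)
    (hl : ∀ y ∈ closedBall z r, 0 ≤ lap g y) :
    2 * Real.pi * g z ≤ ∫ θ in (0 : ℝ)..(2 * Real.pi), g (circleMap z r θ) := by
  set G := fderiv ℝ g with hGdef
  have hG : ContDiff ℝ 1 G := hg.fderiv_right (by norm_num)
  set D2 := fderiv ℝ G with hD2def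
  have hD2 : Continuous D2 := hG.continuous_fderiv (by norm_num)
  have hgd : Differentiable ℝ g := hg.differentiable (by norm_num)
  have hGd : Differentiable ℝ G := hG.differentiable (by norm_num)
  have cm : Continuous (fun p : ℝ × ℝ => circleMap z p.1 p.2) := by
    unfold circleMap
    fun_prop
  have ce : Continuous (fun p : ℝ × ℝ => Complex.exp ((p.2 : ℂ) * Complex.I)) := by fun_prop
  -- the three functions
  let F0 : ℝ → ℝ → ℝ := fun s θ => g (circleMap z s θ)
  let F1 : ℝ → ℝ → ℝ := fun s θ => G (circleMap z s θ) (Complex.exp (θ * Complex.I))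
  let F2 : ℝ → ℝ → ℝ := fun s θ =>
    D2 (circleMap z s θ) (Complex.exp (θ * Complex.I)) (Complex.exp (θ * Complex.I))
  have c0 : Continuous (fun p : ℝ × ℝ => F0 p.1 p.2) := hg.continuous.comp cm
  have c1 : Continuous (fun p : ℝ × ℝ => F1 p.1 p.2) := (hG.continuous.comp cm).clm_apply ce
  have c2 : Continuous (fun p : ℝ × ℝ => F2 p.1 p.2) :=
    ((hD2.comp cm).clm_apply ce).clm_apply ce
  have d0 : ∀ s θ, HasDerivAt (fun s => F0 s θ) (F1 s θ) s := fun s θ =>
    HasFDerivAt.comp_hasDerivAt s (hgd _).hasFDerivAt (circle_s z s θ)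
  have d1 : ∀ s θ, HasDerivAt (fun s => F1 s θ) (F2 s θ) s := by
    intro s θ
    have h1 : HasDerivAt (fun s => G (circleMap z s θ))
        (D2 (circleMap z s θ) (Complex.exp (θ * Complex.I))) s :=
      HasFDerivAt.comp_hasDerivAt s (hGd _).hasFDerivAt (circle_s z s θ)
    have := h1.clm_apply (hasDerivAt_const s (Complex.exp (θ * Complex.I)))
    simpa using this
  let A : ℝ → ℝ := fun s => ∫ θ in (0 : ℝ)..(2 * Real.pi), F0 s θ
  let P : ℝ → ℝ := fun s => ∫ θ in (0 : ℝ)..(2 * Real.pi), F1 s θ
  have dA : ∀ s, HasDerivAt A (P s) s := hasDerivAt_param 0 (2 * Real.pi) c0 c1 d0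
  have dP : ∀ s, HasDerivAt P (∫ θ in (0 : ℝ)..(2 * Real.pi), F2 s θ) s :=
    hasDerivAt_param 0 (2 * Real.pi) c1 c2 d1
  -- the angular derivative
  have i1 : ∀ s, IntervalIntegrable (F1 s) volume 0 (2 * Real.pi) := fun s =>
    (c1.comp (by fun_prop : Continuous fun θ : ℝ => (s, θ))).intervalIntegrable _ _
  have i2 : ∀ s, IntervalIntegrable (F2 s) volume 0 (2 * Real.pi) := fun s =>
    (c2.comp (by fun_prop : Continuous fun θ : ℝ => (s, θ))).intervalIntegrable _ _
  have cl : Continuous (fun y => lap g y) := by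
    have : (fun y => lap g y) = fun y => D2 y 1 1 + D2 y Complex.I Complex.I := by
      funext y; exact lap_eq_D2 hg y
    rw [this]
    exact ((hD2.clm_apply continuous_const).clm_apply continuous_const).add
      ((hD2.clm_apply continuous_const).clm_apply continuous_const)
  have hang : ∀ s, P s = s * ∫ θ in (0 : ℝ)..(2 * Real.pi),
      D2 (circleMap z s θ) (Complex.I * Complex.exp (θ * Complex.I))
        (Complex.I * Complex.exp (θ * Complex.I)) := by
    intro s
    have hK : ∀ θ : ℝ, HasDerivAt (fun θ : ℝ => G (circleMap z s θ)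
        (Complex.I * Complex.exp (θ * Complex.I)))
        (s * D2 (circleMap z s θ) (Complex.I * Complex.exp (θ * Complex.I))
          (Complex.I * Complex.exp (θ * Complex.I)) - F1 s θ) θ := by
      intro θ
      have h1 : HasDerivAt (fun θ => G (circleMap z s θ))
          (D2 (circleMap z s θ) (circleMap 0 s θ * Complex.I)) θ :=
        HasFDerivAt.comp_hasDerivAt θ (hGd _).hasFDerivAt (hasDerivAt_circleMap z s θ)
      have h2 : HasDerivAt (fun θ : ℝ => Complex.I * Complex.exp (θ * Complex.I))
          (-Complex.exp (θ * Complex.I)) θ := by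
        have h3 : HasDerivAt (fun θ : ℝ => (θ : ℂ) * Complex.I) Complex.I θ := by
          have : HasDerivAt (fun s : ℝ => (s : ℂ)) 1 θ := Complex.ofRealCLM.hasDerivAt
          simpa using this.mul_const Complex.I
        have h4 := (h3.cexp).const_mul Complex.I
        refine h4.congr_deriv ?_
        have := Complex.I_mul_I
        linear_combination Complex.exp (θ * Complex.I) * this
      have h5 := h1.clm_apply h2
      refine h5.congr_deriv ?_
      have h6 : circleMap 0 s θ * Complex.I = s • (Complex.I * Complex.exp (θ * Complex.I)) := by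
        rw [circleMap_zero, Complex.real_smul]; ring
      rw [h6, map_smul]
      simp only [smul_apply, smul_eq_mul, map_neg]
      rfl
    have cK : Continuous (fun θ : ℝ => (s * D2 (circleMap z s θ)
        (Complex.I * Complex.exp (θ * Complex.I)) (Complex.I * Complex.exp (θ * Complex.I)))) := by
      have e1 : Continuous (fun θ : ℝ => D2 (circleMap z s θ)) := hD2.comp (continuous_circleMap z s)
      have e2 : Continuous (fun θ : ℝ => Complex.I * Complex.exp (θ * Complex.I)) := by fun_prop
      exact continuous_const.mul ((e1.clm_apply e2).clm_apply e2)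
    have hint := intervalIntegral.integral_eq_sub_of_hasDerivAt (a := (0 : ℝ)) (b := 2 * Real.pi)
      (fun θ _ => hK θ) ((cK.intervalIntegrable _ _).sub (i1 s))
    rw [intervalIntegral.integral_sub (cK.intervalIntegrable _ _) (i1 s),
      intervalIntegral.integral_const_mul] at hint
    have hper : circleMap z s (2 * Real.pi) = circleMap z s 0 := by
      simp [circleMap]
    have hper2 : Complex.exp (((2 * Real.pi : ℝ) : ℂ) * Complex.I) =
        Complex.exp (((0 : ℝ) : ℂ) * Complex.I) := by
      simp
    rw [hper, hper2, sub_self] at hint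
    show ∫ θ in (0 : ℝ)..(2 * Real.pi), F1 s θ = _
    linarith
  -- Q = s P(s)
  have dQ : ∀ s, HasDerivAt (fun s => s * P s)
      (s * ∫ θ in (0 : ℝ)..(2 * Real.pi), lap g (circleMap z s θ)) s := by
    intro s
    have h1 := (hasDerivAt_id s).mul (dP s)
    refine h1.congr_deriv ?_
    simp only [id, one_mul]
    rw [hang s, ← mul_add]
    congr 1
    have cK : Continuous (fun θ : ℝ => D2 (circleMap z s θ)
        (Complex.I * Complex.exp (θ * Complex.I)) (Complex.I * Complex.exp (θ * Complex.I))) := by
      have e1 : Continuous (fun θ : ℝ => D2 (circleMap z s θ)) := hD2.comp (continuous_circleMap z s)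
      have e2 : Continuous (fun θ : ℝ => Complex.I * Complex.exp (θ * Complex.I)) := by fun_prop
      exact (e1.clm_apply e2).clm_apply e2
    rw [← intervalIntegral.integral_add (cK.intervalIntegrable _ _) (i2 s)]
    refine intervalIntegral.integral_congr fun θ _ => ?_
    simp only [F2]
    rw [lap_eq_D2 hg, add_comm]
    exact rot_trace (D2 (circleMap z s θ)) θ
  have hQ : ∀ s ∈ Icc (0 : ℝ) r, 0 ≤ s * P s := by
    have hmono : MonotoneOn (fun s => s * P s) (Icc 0 r) := by
      refine monotoneOn_of_deriv_nonneg (convex_Icc _ _)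
        (fun s _ => (dQ s).continuousAt.continuousWithinAt)
        (fun s _ => (dQ s).differentiableAt.differentiableWithinAt) ?_
      intro s hs
      rw [interior_Icc] at hs
      rw [(dQ s).deriv]
      refine mul_nonneg hs.1.le ?_
      refine intervalIntegral.integral_nonneg (by positivity) fun θ _ => hl _ ?_
      rw [mem_closedBall]
      rw [dist_eq_norm]
      have : circleMap z s θ - z = circleMap 0 s θ := by simp [circleMap]
      rw [this, norm_circleMap_zero, abs_of_pos hs.1]
      exact hs.2.le
    intro s hs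
    have := hmono (left_mem_Icc.2 hr.le) hs hs.1
    simpa using this
  have hA : MonotoneOn A (Icc 0 r) := by
    refine monotoneOn_of_deriv_nonneg (convex_Icc _ _)
      (fun s _ => (dA s).continuousAt.continuousWithinAt)
      (fun s _ => (dA s).differentiableAt.differentiableWithinAt) ?_
    intro s hs
    rw [interior_Icc] at hs
    rw [(dA s).deriv]
    have h1 := hQ s ⟨hs.1.le, hs.2.le⟩
    exact nonneg_of_mul_nonneg_right h1 hs.1
  have hfin := hA (left_mem_Icc.2 hr.le) (right_mem_Icc.2 hr.le) hr.le
  have hA0 : A 0 = 2 * Real.pi * g z := by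
    show ∫ θ in (0 : ℝ)..(2 * Real.pi), g (circleMap z 0 θ) = _
    simp [circleMap]
  rw [hA0] at hfin
  exact hfin

/-- SUBM -/
theorem subm_thm : S_SUBM := by
  intro w hw hl z r hr hsub
  obtain ⟨δ, hδ, hδs⟩ := (isCompact_closedBall z r).exists_cthickening_subset_open isOpen_ball hsub
  rw [cthickening_closedBall hδ.le hr.le] at hδs
  let b : ContDiffBump z := ⟨r + δ / 2, r + δ, by linarith, by linarith⟩
  let g : ℂ → ℝ := fun y => b y * w y
  have hg : ContDiff ℝ 2 g := by
    rw [contDiff_iff_contDiffAt]
    intro y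
    by_cases hy : y ∈ closedBall z (r + δ)
    · have hyb : y ∈ ball (0 : ℂ) 1 := hδs (by rwa [add_comm δ r])
      exact (b.contDiffAt).mul (hw.contDiffAt (isOpen_ball.mem_nhds hyb))
    · have : g =ᶠ[𝓝 y] fun _ => 0 := by
        filter_upwards [isClosed_closedBall.isOpen_compl.mem_nhds hy] with x hx
        have : b x = 0 := by
          apply b.zero_of_le_dist
          rw [mem_compl_iff, mem_closedBall, not_le] at hx
          exact hx.le
        simp [g, this]
      exact contDiffAt_const.congr_of_eventuallyEq this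
  have hgw : ∀ y ∈ closedBall z r, g =ᶠ[𝓝 y] w := by
    intro y hy
    have hy2 : y ∈ ball z (r + δ / 2) := by
      rw [mem_closedBall] at hy
      rw [mem_ball]; linarith
    filter_upwards [isOpen_ball.mem_nhds hy2] with x hx
    have : b x = 1 := b.one_of_mem_closedBall (ball_subset_closedBall hx)
    simp [g, this]
  have hlap : ∀ y ∈ closedBall z r, lap g y = lap w y := by
    intro y hy
    have h1 := hgw y hy
    have h2 : fderiv ℝ g =ᶠ[𝓝 y] fderiv ℝ w := h1.fderiv
    have h3 : dX g =ᶠ[𝓝 y] dX w := by
      filter_upwards [h2] with x hx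
      unfold dX; rw [hx]
    have h4 : dY g =ᶠ[𝓝 y] dY w := by
      filter_upwards [h2] with x hx
      unfold dY; rw [hx]
    unfold lap
    unfold dX at h3 ⊢
    unfold dY at h4 ⊢
    rw [h3.fderiv_eq, h4.fderiv_eq]
  have hmain := subm_global hg z r hr (fun y hy => by
    rw [hlap y hy]; exact hl y (hsub hy))
  have hz : g z = w z := (hgw z (mem_closedBall_self hr.le)).eq_of_nhds
  rw [hz] at hmain
  refine hmain.trans (le_of_eq ?_)
  refine intervalIntegral.integral_congr fun θ _ => ?_
  exact (hgw _ (circleMap_mem_closedBall z hr.le θ)).eq_of_nhds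

end Helper79.GL
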