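import Pool.Agent.Helper78.GL.Spec

set_option autoImplicit false

/-!
Parts A_TSA, A_TSB, A_TSC of the GL swarm (MP_a31c1c_an): geometry of translation surfaces.
-/

open MeasureTheory Metric Set Filter Topology

namespace Helper79.GL

open Helper78.GL Pool.GL

/-- TSA -/
theorem tsa_thm : S_TSA := by
  intro M T p z hz
  have h0 : 0 < T.rho p := T.rho_pos p
  have hz' : ‖z‖ < T.rho p := by linarith
  have h1 : T.Phi (T.Phi p z) (-z) = p := by
    rw [T.Phi_add p z (-z) (by rw [norm_neg]; linarith), add_neg_cancel, T.Phi_zero]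
  have h2 := T.rho_lip p z hz'
  have h3 := T.rho_lip (T.Phi p z) (-z) (by rw [norm_neg]; linarith)
  rw [h1, norm_neg] at h3
  exact ⟨by linarith, h1⟩

lemma tsb_aux {M : Type} (T : TS M) (p q : M) (z₁ w₁ : ℂ)
    (h1 : T.Phi p z₁ = T.Phi q w₁)
    (h : ℂ) (hp : ‖z₁‖ + ‖h‖ < T.rho p) (hq : ‖w₁‖ + ‖h‖ < T.rho q) :
    T.Phi p (z₁ + h) = T.Phi q (w₁ + h) := by
  rw [← T.Phi_add p z₁ h hp, ← T.Phi_add q w₁ h hq, h1]

lemma tsb_aux2 {M : Type} (T : TS M) (p q : M) (z₁ w₁ : ℂ)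
    (hz₁ : ‖z₁‖ < T.rho p / 4) (hw₁ : ‖w₁‖ < T.rho q / 4) (h1 : T.Phi p z₁ = T.Phi q w₁)
    (hpq : T.rho p ≤ T.rho q) (z w : ℂ) (hz : ‖z‖ < T.rho p / 4) (hw : ‖w‖ < T.rho q / 4)
    (heq : T.Phi p z = T.Phi q w) : w - z = w₁ - z₁ := by
  have hp0 := T.rho_pos p
  have hq0 := T.rho_pos q
  have hn : ‖z - z₁‖ ≤ ‖z‖ + ‖z₁‖ := norm_sub_le _ _
  have h2 := tsb_aux T p q z₁ w₁ h1 (z - z₁) (by linarith) (by linarith)
  rw [show z₁ + (z - z₁) = z by ring, heq] at h2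
  have h3 : ‖w₁ + (z - z₁)‖ ≤ ‖w₁‖ + ‖z - z₁‖ := norm_add_le _ _
  have := T.Phi_inj q w (w₁ + (z - z₁)) (by linarith [T.rho_pos q]) (by linarith) h2
  rw [this]; ring

/-- TSB -/
theorem tsb_thm : S_TSB := by
  intro M T p q z₁ w₁ hz₁ hw₁ h1 z w hz hw
  have hp0 := T.rho_pos p
  have hq0 := T.rho_pos q
  constructor
  · intro heq
    rcases le_total (T.rho p) (T.rho q) with h | h
    · exact tsb_aux2 T p q z₁ w₁ hz₁ hw₁ h1 h z w hz hw heq
    · have := tsb_aux2 T q p w₁ z₁ hw₁ hz₁ h1.symm h w z hw hz heq.symm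
      rw [← neg_sub z w, this, neg_sub]
  · intro heq
    have e1 : z - z₁ = w - w₁ := by linear_combination -heq
    have hn : ‖z - z₁‖ ≤ ‖z‖ + ‖z₁‖ := norm_sub_le _ _
    have hn' : ‖z - z₁‖ ≤ ‖w‖ + ‖w₁‖ := by rw [e1]; exact norm_sub_le _ _
    have h2 := tsb_aux T p q z₁ w₁ h1 (z - z₁) (by linarith) (by linarith)
    rw [show z₁ + (z - z₁) = z by ring, e1, show w₁ + (w - w₁) = w by ring] at h2
    exact h2

lemma tsc_aux {M : Type} (T : TS M) (ε : ℝ) (hε : 0 < ε) (x : M) (t : ℂ) (ht : ‖t‖ < T.rho x) :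
    Relation.ReflTransGen (fun x y => ∃ z, ‖z‖ < ε * T.rho x ∧ y = T.Phi x z) x (T.Phi x t) := by
  obtain ⟨n, hn⟩ := exists_nat_gt (‖t‖ / (ε * (T.rho x - ‖t‖)))
  have hd : 0 < T.rho x - ‖t‖ := by linarith
  have hn0 : (0 : ℝ) < n := lt_of_le_of_lt (by positivity) hn
  have hn1 : ‖t‖ / n < ε * (T.rho x - ‖t‖) := by
    rw [div_lt_iff₀ (by positivity)] at hn
    rw [div_lt_iff₀ hn0]; linarith
  have key : ∀ k : ℕ, k ≤ n →
      Relation.ReflTransGen (fun x y => ∃ z, ‖z‖ < ε * T.rho x ∧ y = T.Phi x z) x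
        (T.Phi x (((k : ℝ) / n : ℝ) * t)) := by
    intro k
    induction k with
    | zero =>
      intro _
      simp only [Nat.cast_zero, zero_div, Complex.ofReal_zero, zero_mul, T.Phi_zero]
      exact Relation.ReflTransGen.refl
    | succ k ih =>
      intro hk
      refine (ih (by omega)).tail ?_
      have hk1 : ((k : ℝ) + 1) ≤ n := by exact_mod_cast hk
      have hnorm : ‖(((k : ℝ) / n : ℝ) : ℂ) * t‖ = (k : ℝ) / n * ‖t‖ := by
        rw [norm_mul, Complex.norm_real, Real.norm_of_nonneg (by positivity)]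
      have hnorm' : ‖((1 / n : ℝ) : ℂ) * t‖ = 1 / n * ‖t‖ := by
        rw [norm_mul, Complex.norm_real, Real.norm_of_nonneg (by positivity)]
      have hsum : (k : ℝ) / n * ‖t‖ + 1 / n * ‖t‖ ≤ ‖t‖ := by
        rw [← add_mul, ← add_div]
        have : ((k : ℝ) + 1) / n ≤ 1 := by rw [div_le_one hn0]; exact hk1
        nlinarith [norm_nonneg t]
      have hpos : 0 ≤ 1 / (n : ℝ) * ‖t‖ := by positivity
      refine ⟨((1 / n : ℝ) : ℂ) * t, ?_, ?_⟩
      · rw [hnorm']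
        have h1 := T.rho_lip x ((((k : ℝ) / n : ℝ) : ℂ) * t) (by rw [hnorm]; linarith)
        rw [hnorm] at h1
        have h2 : T.rho x - ‖t‖ ≤ T.rho (T.Phi x ((((k : ℝ) / n : ℝ) : ℂ) * t)) := by linarith
        calc 1 / (n : ℝ) * ‖t‖ = ‖t‖ / n := by ring
          _ < ε * (T.rho x - ‖t‖) := hn1
          _ ≤ _ := by gcongr
      · rw [T.Phi_add _ _ _ (by rw [hnorm, hnorm']; linarith)]
        congr 1
        push_cast
        ring
  have := key n le_rfl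
  rw [div_self hn0.ne'] at this
  simpa using this

/-- TSC -/
theorem tsc_thm : S_TSC := by
  intro M T ε hε p q
  have h := T.conn p q
  induction h with
  | refl => exact Relation.ReflTransGen.refl
  | tail _ hs ih =>
    obtain ⟨t, ht, rfl⟩ := hs
    exact ih.trans (tsc_aux T ε hε _ t ht)

end Helper79.GL
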